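import Pool.Agent.H352.DSH.TwoC
import Pool.Agent.H466R3.DM_Prim0
import Pool.Agent.H988R3.DM.TwoD

/-! # Sums over insertions of letters into words in `x₀, x₁` -/

set_option autoImplicit false

namespace Pool.Agent.TH19.DS

open Pool.Agent.H777R4.DM

/-- the sum of `β` over all words obtained from `u` by inserting the letter `i` -/
def ins (i : Fin 2) : List (Fin 2) → (List (Fin 2) → ℚ) → ℚ
  | [], β => β [i]
  | a :: u, β => β (i :: a :: u) + ins i u (fun t => β (a :: t))

/-- the same with the insertion at the end left out -/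
def insP (i : Fin 2) : List (Fin 2) → (List (Fin 2) → ℚ) → ℚ
  | [], _ => 0
  | a :: u, β => β (i :: a :: u) + insP i u (fun t => β (a :: t))

/-- the sum of `β` over all words obtained from `u` by inserting `x₁` right after some `x₁` -/
def af : List (Fin 2) → (List (Fin 2) → ℚ) → ℚ
  | [], _ => 0
  | a :: u, β => (if a = 1 then β (1 :: 1 :: u) else 0) + af u (fun t => β (a :: t))

/-- the sum of `β` over all words obtained from `u` by inserting `x₁^k` right after some `x₀` -/
def ez (k : ℕ) : List (Fin 2) → (List (Fin 2) → ℚ) → ℚ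
  | [], _ => 0
  | a :: u, β => (if a = 0 then β (0 :: (List.replicate k 1 ++ u)) else 0) + ez k u (fun t => β (a :: t))

lemma ins_eq (i : Fin 2) (u : List (Fin 2)) : ∀ β : List (Fin 2) → ℚ,
    ins i u β = ∑ j ∈ Finset.range (u.length + 1), β (u.insertIdx j i) := by
  induction u with
  | nil => intro β; simp [ins]
  | cons a u ih =>
    intro β
    rw [ins, ih, List.length_cons, Finset.sum_range_succ' _ (u.length + 1), add_comm]
    simp [List.insertIdx_succ_cons]

lemma ins_split (u : List (Fin 2)) : ∀ β : List (Fin 2) → ℚ,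
    ins 1 u β = β (1 :: u) + af u β + ez 1 u β := by
  induction u with
  | nil => intro β; simp [ins, af, ez]
  | cons a u ih =>
    intro β
    rw [ins, ih, af, ez]
    have h : a = 0 ∨ a = 1 := by omega
    rcases h with rfl | rfl
    · simp; ring
    · simp; ring

lemma ez_add (k : ℕ) (u : List (Fin 2)) : ∀ β γ : List (Fin 2) → ℚ,
    ez k u (fun t => β t + γ t) = ez k u β + ez k u γ := by
  induction u with
  | nil => intro β γ; simp [ez]
  | cons a u ih =>
    intro β γ
    rw [ez, ez, ez, ih]
    split_ifs <;> ring

lemma ins_add (i : Fin 2) (u : List (Fin 2)) : ∀ β γ : List (Fin 2) → ℚ,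
    ins i u (fun t => β t + γ t) = ins i u β + ins i u γ := by
  induction u with
  | nil => intro β γ; simp [ins]
  | cons a u ih =>
    intro β γ
    rw [ins, ins, ins, ih]
    ring

lemma ez_zero (k : ℕ) (u : List (Fin 2)) : ∀ β : List (Fin 2) → ℚ, (∀ t, β t = 0) → ez k u β = 0 := by
  induction u with
  | nil => intro β _; simp [ez]
  | cons a u ih =>
    intro β h
    rw [ez, ih _ (fun t => h _), h]
    simp

lemma ins_replicate (k : ℕ) (u : List (Fin 2)) : ∀ γ : List (Fin 2) → ℚ,
    ins 1 (List.replicate k 1 ++ u) γ = ins 1 u (fun t => γ (List.replicate k 1 ++ t)) +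
      k * γ (List.replicate (k + 1) 1 ++ u) := by
  induction k with
  | zero => intro γ; simp
  | succ k ih =>
    intro γ
    rw [List.replicate_succ, List.cons_append, ins, ih]
    have e1 : (1 : Fin 2) :: (List.replicate (k + 1) 1 ++ u) = List.replicate (k + 1 + 1) 1 ++ u := by
      rw [List.replicate_succ (n := k + 1)]; rfl
    have e2 : (1 : Fin 2) :: 1 :: (List.replicate k 1 ++ u) = List.replicate (k + 1 + 1) 1 ++ u := by
      rw [List.replicate_succ (n := k + 1), List.replicate_succ]; rfl
    rw [e1, e2]
    push_cast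
    have e3 : ∀ t : List (Fin 2), (1 : Fin 2) :: (List.replicate k 1 ++ t) = 1 :: List.replicate k 1 ++ t :=
      fun t => rfl
    simp only [e3]
    ring

/-- the commutation identity -/
lemma ez_ins (k : ℕ) (u : List (Fin 2)) : ∀ β : List (Fin 2) → ℚ,
    ez k u (fun t => ins 1 t β) = ins 1 u (fun t => ez k t β) + k * ez (k + 1) u β := by
  induction u with
  | nil => intro β; simp [ez, ins]
  | cons a u ih =>
    intro β
    have h : a = 0 ∨ a = 1 := by omega
    rcases h with rfl | rfl
    · have h1 : ez k (0 :: u) (fun t => ins 1 t β) =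
          ins 1 (0 :: (List.replicate k 1 ++ u)) β + ez k u (fun t => ins 1 (0 :: t) β) := by
        rw [ez, if_pos rfl]
      have h2 : ez k u (fun t => ins 1 (0 :: t) β) =
          ez k u (fun t => β (1 :: 0 :: t)) + ez k u (fun t => ins 1 t (fun s => β (0 :: s))) := by
        rw [← ez_add]; rfl
      have h3 : ins 1 (0 :: (List.replicate k 1 ++ u)) β = β (1 :: 0 :: (List.replicate k 1 ++ u)) +
          ins 1 (List.replicate k 1 ++ u) (fun s => β (0 :: s)) := rfl
      have h4 : ins 1 (0 :: u) (fun t => ez k t β) =
          ez k (1 :: 0 :: u) β + ins 1 u (fun t => ez k (0 :: t) β) := rfl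
      have h5 : ez k (1 :: 0 :: u) β = β (1 :: 0 :: (List.replicate k 1 ++ u)) +
          ez k u (fun t => β (1 :: 0 :: t)) := by
        rw [ez, ez, if_neg (by decide), if_pos rfl, zero_add]
      have h6 : ins 1 u (fun t => ez k (0 :: t) β) =
          ins 1 u (fun t => β (0 :: (List.replicate k 1 ++ t))) +
            ins 1 u (fun t => ez k t (fun s => β (0 :: s))) := by
        rw [← ins_add]
        congr 1
      have h7 : ez (k + 1) (0 :: u) β = β (0 :: (List.replicate (k + 1) 1 ++ u)) +
          ez (k + 1) u (fun s => β (0 :: s)) := by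
        rw [ez, if_pos rfl]
      rw [h1, h2, h3, h4, h5, h6, h7, ih, ins_replicate]
      ring
    · have h1 : ez k (1 :: u) (fun t => ins 1 t β) = ez k u (fun t => ins 1 (1 :: t) β) := by
        rw [ez, if_neg (by decide), zero_add]
      have h2 : ez k u (fun t => ins 1 (1 :: t) β) =
          ez k u (fun t => β (1 :: 1 :: t)) + ez k u (fun t => ins 1 t (fun s => β (1 :: s))) := by
        rw [← ez_add]; rfl
      have h4 : ins 1 (1 :: u) (fun t => ez k t β) =
          ez k (1 :: 1 :: u) β + ins 1 u (fun t => ez k (1 :: t) β) := rfl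
      have h5 : ez k (1 :: 1 :: u) β = ez k u (fun t => β (1 :: 1 :: t)) := by
        rw [ez, ez, if_neg (by decide), if_neg (by decide), zero_add, zero_add]
      have h6 : ins 1 u (fun t => ez k (1 :: t) β) = ins 1 u (fun t => ez k t (fun s => β (1 :: s))) := by
        congr 1
        funext t
        rw [ez, if_neg (by decide), zero_add]
      have h7 : ez (k + 1) (1 :: u) β = ez (k + 1) u (fun s => β (1 :: s)) := by
        rw [ez, if_neg (by decide), zero_add]
      rw [h1, h2, h4, h5, h6, h7, ih]
      ring

/-- `t` ends with `x₁` -/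
def End1 (t : List (Fin 2)) : Prop := t.getLast? = some 1

lemma end1_cons {a : Fin 2} {u : List (Fin 2)} (hu : u ≠ []) : End1 (a :: u) ↔ End1 u := by
  unfold End1
  rw [List.getLast?_cons_of_ne_nil hu]

lemma end1_append (s : List (Fin 2)) {u : List (Fin 2)} (hu : End1 u) : End1 (s ++ u) := by
  unfold End1 at *
  rw [List.getLast?_append, hu]; rfl

/-- insertion keeps the last letter `x₁` -/
lemma ins_zero_of (u : List (Fin 2)) : ∀ (f : List (Fin 2) → ℚ) (p q : ℕ), u.count 0 = p →
    u.count 1 = q → End1 u →
    (∀ t, t.count 0 = p → t.count 1 = q + 1 → End1 t → f t = 0) → ins 1 u f = 0 := by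
  induction u with
  | nil => intro f p q _ _ h; simp [End1] at h
  | cons a u ih =>
    intro f p q hp hq he hf
    rw [ins, hf (1 :: a :: u) (by simpa using hp) (by rw [List.count_cons]; simp [hq])
      ((end1_cons (by simp)).2 he), zero_add]
    by_cases hu : u = []
    · subst hu
      rw [ins]
      have ha : a = 1 := by simpa [End1] using he
      subst ha
      refine hf _ ?_ ?_ ?_
      · simpa using hp
      · simp at hq ⊢; omega
      · simp [End1]
    · have he' := (end1_cons hu).1 he
      refine ih _ (u.count 0) (u.count 1) rfl rfl he' fun t h0 h1 h2 => ?_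
      refine hf _ ?_ ?_ ((end1_cons (by rintro rfl; simp [End1] at h2)).2 h2)
      · rw [← hp, List.count_cons, List.count_cons, h0]
      · rw [← hq, List.count_cons, List.count_cons, h1]; ring

end Pool.Agent.TH19.DS
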