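import Pool.Agent.TH19.DS.A
import Pool.Agent.H777R4.DM.Basic

/-! # The relations of the part of smallest depth, in terms of the words `x₀ x₁^{g₁} ⋯ x₀ x₁^{g_m} x₁` -/

set_option autoImplicit false

namespace Pool.Agent.TH19.DS

open Pool.Agent.H777R4.DM

/-- the word `x₀ x₁^{g₁} ⋯ x₀ x₁^{g_m} x₁` -/
def W : List ℕ → List (Fin 2)
  | [] => [1]
  | g :: l => 0 :: (List.replicate g 1 ++ W l)

/-- the sum of `γ` over the lists obtained by adding `k` to one entry -/
def sh (k : ℕ) : List ℕ → (List ℕ → ℚ) → ℚ
  | [], _ => 0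
  | g :: l, γ => γ ((g + k) :: l) + sh k l (fun l' => γ (g :: l'))

lemma End1.ne {t : List (Fin 2)} (h : End1 t) : t ≠ [] := by
  rintro rfl; simp [End1] at h

lemma W_end1 (l : List ℕ) : End1 (W l) := by
  induction l with
  | nil => simp [W, End1]
  | cons g l ih =>
    rw [W]
    exact (end1_cons (by simp [ih.ne])).2 (end1_append _ ih)

lemma W_count0 (l : List ℕ) : (W l).count 0 = l.length := by
  induction l with
  | nil => simp [W]
  | cons g l ih => simp [W, ih, List.count_append, List.count_replicate]

lemma W_count1 (l : List ℕ) : (W l).count 1 = l.sum + 1 := by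
  induction l with
  | nil => simp [W]
  | cons g l ih => simp [W, ih, List.count_append, List.count_replicate]; omega

lemma exists_W (t : List (Fin 2)) : End1 t → ∃ (k : ℕ) (l : List ℕ), t = List.replicate k 1 ++ W l := by
  induction t with
  | nil => intro h; exact absurd rfl h.ne
  | cons a t ih =>
    intro h
    by_cases ht : t = []
    · subst ht
      have ha : a = 1 := by simpa [End1] using h
      subst ha
      exact ⟨0, [], rfl⟩
    · obtain ⟨k, l, e⟩ := ih ((end1_cons ht).1 h)
      have h2 : a = 0 ∨ a = 1 := by omega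
      rcases h2 with rfl | rfl
      · exact ⟨0, k :: l, by rw [e]; rfl⟩
      · exact ⟨k + 1, l, by rw [e, List.replicate_succ]; rfl⟩

lemma exists_W0 (t : List (Fin 2)) (h : End1 t) : ∃ l : List ℕ, 0 :: t = W l := by
  obtain ⟨k, l, e⟩ := exists_W t h
  exact ⟨k :: l, by rw [e]; rfl⟩

lemma ez_replicate (k n : ℕ) (t : List (Fin 2)) : ∀ β : List (Fin 2) → ℚ,
    ez k (List.replicate n 1 ++ t) β = ez k t (fun s => β (List.replicate n 1 ++ s)) := by
  induction n with
  | zero => intro β; rfl
  | succ n ih =>
    intro β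
    rw [List.replicate_succ, List.cons_append, ez, if_neg (by decide), zero_add, ih]
    rfl

lemma ez_W (k : ℕ) (l : List ℕ) : ∀ β : List (Fin 2) → ℚ,
    ez k (W l) β = sh k l (fun l' => β (W l')) := by
  induction l with
  | nil => intro β; simp [W, ez, sh]
  | cons g l ih =>
    intro β
    rw [W, ez, if_pos rfl, ez_replicate, ih, sh]
    congr 1
    rw [W, Nat.add_comm, List.replicate_add, List.append_assoc]

lemma af_zeros (k : ℕ) (t : List (Fin 2)) : ∀ β : List (Fin 2) → ℚ,
    af (List.replicate k 0 ++ t) β = af t (fun s => β (List.replicate k 0 ++ s)) := by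
  induction k with
  | zero => intro β; rfl
  | succ n ih =>
    intro β
    rw [List.replicate_succ, List.cons_append, af, if_neg (by decide), zero_add, ih]
    rfl

lemma insY (v : List ℕ) : ∀ β : List (Fin 2) → ℚ,
    ∑ j ∈ Finset.range (v.length + 1), β (wordX (v.insertIdx j 0)) =
      β (1 :: wordX v) + af (wordX v) β := by
  induction v with
  | nil => intro β; simp [wordX, af]
  | cons k v ih =>
    intro β
    rw [List.length_cons, Finset.sum_range_succ' _ (v.length + 1)]
    have h := ih (fun t => β (List.replicate k 0 ++ 1 :: t))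
    have e : ∀ j, β (wordX ((k :: v).insertIdx (j + 1) 0)) =
        β (List.replicate k 0 ++ 1 :: wordX (v.insertIdx j 0)) := by
      intro j
      rw [List.insertIdx_succ_cons]; rfl
    simp only [e]
    rw [h]
    have e2 : af (wordX (k :: v)) β = β (List.replicate k 0 ++ 1 :: 1 :: wordX v) +
        af (wordX v) (fun t => β (List.replicate k 0 ++ 1 :: t)) := by
      rw [wordX, af_zeros, af, if_pos rfl]
    rw [e2, List.insertIdx_zero]
    have e3 : wordX (0 :: k :: v) = 1 :: wordX (k :: v) := rfl
    rw [e3]
    ring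

lemma end1_wordX {v : List ℕ} (hv : v ≠ []) : End1 (wordX v) := by
  induction v with
  | nil => exact absurd rfl hv
  | cons k v ih =>
    rw [wordX]
    apply end1_append
    by_cases h : v = []
    · subst h; simp [wordX, End1]
    · exact (end1_cons (ih h).ne).2 (ih h)

lemma exists_wordX {t : List (Fin 2)} (h : End1 t) : ∃ v : List ℕ, v ≠ [] ∧ t = wordX v := by
  have h1 := wordX_strip t
  rcases hk : (strip t).2 with _ | k
  · rw [hk, List.replicate_zero, List.append_nil] at h1
    refine ⟨(strip t).1, ?_, h1.symm⟩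
    intro h2
    rw [h2] at h1
    exact h.ne h1.symm
  · exfalso
    rw [hk] at h1
    rw [← h1, End1, List.replicate_succ', ← List.append_assoc, List.getLast?_concat] at h
    simp at h

section rel
variable {β : List (Fin 2) → ℚ} {r : ℕ}

/-- the relations `E_k` -/
lemma ek (hS : ∀ w, ins 1 w β = 0)
    (hY : ∀ v : List ℕ, v ≠ [] → v.length + 1 = r → β (1 :: wordX v) + af (wordX v) β = 0) :
    ∀ k, 1 ≤ k → ∀ t, End1 t → t.count 1 + k = r → ez k t β = 0 := by
  intro k hk
  induction k, hk using Nat.le_induction with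
  | base =>
    intro t ht hr
    obtain ⟨v, hv, rfl⟩ := exists_wordX ht
    rw [wordX_count] at hr
    have h1 := hY v hv hr
    have h2 := hS (wordX v)
    rw [ins_split, h1, zero_add] at h2
    exact h2
  | succ k hk ih =>
    intro t ht hr
    have h1 := ez_ins k t β
    rw [ez_zero k t _ (fun s => hS s)] at h1
    have h2 : ins 1 t (fun t => ez k t β) = 0 := by
      refine ins_zero_of t _ _ _ rfl rfl ht fun s _ h4 h5 => ih s h5 ?_
      omega
    rw [h2, zero_add] at h1
    have h3 : (k : ℚ) ≠ 0 := by
      have : k ≠ 0 := by omega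
      exact_mod_cast this
    exact (mul_eq_zero.1 h1.symm).resolve_left h3

lemma sh_zero (hS : ∀ w, ins 1 w β = 0)
    (hY : ∀ v : List ℕ, v ≠ [] → v.length + 1 = r → β (1 :: wordX v) + af (wordX v) β = 0)
    (k : ℕ) (hk : 1 ≤ k) (l : List ℕ) (hl : l.sum + k + 1 = r) : sh k l (fun l' => β (W l')) = 0 := by
  rw [← ez_W]
  refine ek hS hY k hk _ (W_end1 l) ?_
  rw [W_count1]; omega

/-- words with leading `x₁` -/
lemma lead (hS : ∀ w, ins 1 w β = 0) {m : ℕ} (hm : 1 ≤ m)
    (hB : ∀ l : List ℕ, l.length = m → l.sum + 1 = r → β (W l) = 0) :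
    ∀ (k : ℕ) (l : List ℕ), l.length = m → l.sum + 1 + k = r → β (List.replicate k 1 ++ W l) = 0 := by
  intro k
  induction k with
  | zero => intro l h1 h2; exact hB l h1 h2
  | succ k ih =>
    intro l h1 h2
    have h3 := hS (List.replicate k 1 ++ W l)
    rw [ins_replicate] at h3
    obtain ⟨g, l', rfl⟩ : ∃ g l', l = g :: l' := by
      cases l with
      | nil => simp at h1; omega
      | cons g l' => exact ⟨g, l', rfl⟩
    have h4 : ins 1 (W (g :: l')) (fun t => β (List.replicate k 1 ++ t)) =
        β (List.replicate k 1 ++ 1 :: W (g :: l')) +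
        ins 1 (List.replicate g 1 ++ W l') (fun t => β (List.replicate k 1 ++ 0 :: t)) := by
      rw [W, ins]
    have h5 : ins 1 (List.replicate g 1 ++ W l') (fun t => β (List.replicate k 1 ++ 0 :: t)) = 0 := by
      refine ins_zero_of _ _ _ _ rfl rfl (end1_append _ (W_end1 l')) fun t h6 h7 h8 => ?_
      obtain ⟨l2, e⟩ := exists_W0 t h8
      have c0 := congrArg (List.count 0) e
      have c1 := congrArg (List.count 1) e
      rw [W_count0] at c0
      rw [W_count1] at c1
      simp only [List.count_append, List.count_replicate, W_count0, W_count1] at h6 h7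
      simp at c0 c1 h6 h7 h1 h2
      rw [e]
      apply ih
      · omega
      · omega
    have h6 : List.replicate k (1 : Fin 2) ++ 1 :: W (g :: l') = List.replicate (k + 1) 1 ++ W (g :: l') := by
      rw [List.replicate_succ']; simp
    rw [h4, h5, h6] at h3
    have h7 : ((k : ℚ) + 1) * β (List.replicate (k + 1) 1 ++ W (g :: l')) = 0 := by linarith
    have h8 : (k : ℚ) + 1 ≠ 0 := by positivity
    exact (mul_eq_zero.1 h7).resolve_left h8

lemma ins_append (i : Fin 2) (s t : List (Fin 2)) : ∀ β : List (Fin 2) → ℚ,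
    ins i (s ++ t) β = insP i s (fun y => β (y ++ t)) + ins i t (fun y => β (s ++ y)) := by
  induction s with
  | nil => intro β; simp [insP]
  | cons a s ih =>
    intro β
    rw [List.cons_append, ins, ih, insP]
    simp only [List.cons_append]
    ring

lemma ins_zeros (k : ℕ) : ∀ γ : List (Fin 2) → ℚ,
    ins 0 (List.replicate k 0) γ = (k + 1) * γ (List.replicate (k + 1) 0) := by
  induction k with
  | zero => intro γ; simp [ins]
  | succ k ih =>
    intro γ
    rw [List.replicate_succ, ins, ih]
    rw [List.replicate_succ (n := k + 1), List.replicate_succ (n := k)]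
    push_cast
    ring

lemma insP_zero_of (u : List (Fin 2)) : ∀ (f : List (Fin 2) → ℚ) (p q : ℕ), u.count 0 = p →
    u.count 1 = q → End1 u →
    (∀ t, t.count 0 = p + 1 → t.count 1 = q → End1 t → f t = 0) → insP 0 u f = 0 := by
  induction u with
  | nil => intro f p q _ _ h; exact absurd rfl h.ne
  | cons a u ih =>
    intro f p q hp hq he hf
    rw [insP, hf (0 :: a :: u) (by rw [List.count_cons]; simp [hp]) (by simpa using hq)
      ((end1_cons (by simp)).2 he), zero_add]
    by_cases hu : u = []
    · subst hu; rfl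
    · have he' := (end1_cons hu).1 he
      refine ih _ (u.count 0) (u.count 1) rfl rfl he' fun t h0 h1 h2 => ?_
      refine hf _ ?_ ?_ ((end1_cons h2.ne).2 h2)
      · rw [← hp, List.count_cons, List.count_cons, h0]; ring
      · rw [← hq, List.count_cons, List.count_cons, h1]

/-- words with trailing `x₀` -/
lemma tail (hT : ∀ w, ins 0 w β = 0) {m : ℕ}
    (hA : ∀ t, End1 t → t.count 0 = m → t.count 1 = r → β t = 0) :
    ∀ (k : ℕ) (s : List (Fin 2)), End1 s → s.count 0 + k = m → s.count 1 = r →
      β (s ++ List.replicate k 0) = 0 := by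
  intro k
  induction k with
  | zero => intro s h1 h2 h3; simpa using hA s h1 h2 h3
  | succ k ih =>
    intro s h1 h2 h3
    have h4 := hT (s ++ List.replicate k 0)
    rw [ins_append, ins_zeros] at h4
    have h5 : insP 0 s (fun y => β (y ++ List.replicate k 0)) = 0 :=
      insP_zero_of s _ _ _ rfl rfl h1 fun t h6 h7 h8 => ih t h8 (by omega) (by omega)
    rw [h5, zero_add] at h4
    have h8 : (k : ℚ) + 1 ≠ 0 := by positivity
    exact (mul_eq_zero.1 h4).resolve_left h8

/-- all words of the bidegree -/
lemma all_zero (hS : ∀ w, ins 1 w β = 0) (hT : ∀ w, ins 0 w β = 0) (hr : 1 ≤ r) {m : ℕ}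
    (hB : ∀ l : List ℕ, l.length = m → l.sum + 1 = r → 1 ≤ m → β (W l) = 0) :
    ∀ t, t.count 0 = m → t.count 1 = r → β t = 0 := by
  intro t h0 h1
  have key : ∀ t, End1 t → t.count 0 = m → t.count 1 = r → β t = 0 := by
    intro t ht h2 h3
    obtain ⟨k, l, rfl⟩ := exists_W t ht
    simp only [List.count_append, List.count_replicate, W_count0, W_count1] at h2 h3
    simp at h2 h3
    by_cases hm : 1 ≤ m
    · exact lead hS hm (fun l a b => hB l a b hm) k l h2 (by omega)
    · have hm0 : m = 0 := by omega
      have hl : l = [] := List.length_eq_zero_iff.1 (by omega)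
      subst hl
      have h4 := hS (List.replicate k 1 ++ [])
      rw [ins_replicate] at h4
      have h5 : ins 1 [] (fun t => β (List.replicate k 1 ++ t)) = β (List.replicate k 1 ++ W []) := rfl
      have h6 : List.replicate (k + 1) (1 : Fin 2) ++ [] = List.replicate k 1 ++ W [] := by
        rw [List.replicate_succ']; simp [W]
      rw [h5, h6] at h4
      have h7 : ((k : ℚ) + 1) * β (List.replicate k 1 ++ W []) = 0 := by linarith
      have h8 : (k : ℚ) + 1 ≠ 0 := by positivity
      exact (mul_eq_zero.1 h7).resolve_left h8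
  have h2 := wordX_strip t
  rw [← h2]
  have h3 := word_count (strip t).1 (strip t).2
  rw [h2, h1] at h3
  have hne : (strip t).1 ≠ [] := by
    intro h; rw [h] at h3; simp at h3; omega
  refine tail hT key _ _ (end1_wordX hne) ?_ ?_
  · rw [← h2] at h0
    simpa [List.count_append, List.count_replicate] using h0
  · rw [wordX_count]; exact h3.symm

end rel

end Pool.Agent.TH19.DS
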