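import Mathlib.RingTheory.MvPolynomial.Symmetric.NewtonIdentities
import Mathlib.RingTheory.Polynomial.Vieta
import Mathlib.RingTheory.Ideal.Quotient.Operations
import Mathlib.Algebra.Algebra.Subalgebra.Lattice

/-! # The monomials of Artin span the coinvariant algebra -/

set_option autoImplicit false

namespace Pool.Agent.TH19.DS

open Polynomial

section one
variable {R : Type*} [CommRing R] [Algebra ℚ R]

/-- the space spanned by the products `b t^j` with `b ∈ B`, `j ≤ m` -/
def M (B : Subalgebra ℚ R) (t : R) (m : ℕ) : Submodule ℚ R :=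
  Submodule.span ℚ {z | ∃ b ∈ B, ∃ j, j ≤ m ∧ z = b * t ^ j}

lemma M_mulB (B : Subalgebra ℚ R) (t : R) (m : ℕ) (b : R) (hb : b ∈ B) (z : R) (hz : z ∈ M B t m) :
    b * z ∈ M B t m := by
  unfold M at hz
  induction hz using Submodule.span_induction with
  | mem z hz =>
    obtain ⟨c, hc, j, hj, rfl⟩ := hz
    exact Submodule.subset_span ⟨b * c, B.mul_mem hb hc, j, hj, by ring⟩
  | zero => rw [mul_zero]; exact Submodule.zero_mem _
  | add x y _ _ hx hy => rw [mul_add]; exact Submodule.add_mem _ hx hy
  | smul a x _ hx => rw [mul_smul_comm]; exact Submodule.smul_mem _ _ hx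

lemma M_mulT (B : Subalgebra ℚ R) (t : R) (m : ℕ) (ht : t ^ (m + 1) ∈ M B t m) (z : R)
    (hz : z ∈ M B t m) : t * z ∈ M B t m := by
  unfold M at hz
  induction hz using Submodule.span_induction with
  | mem z hz =>
    obtain ⟨c, hc, j, hj, rfl⟩ := hz
    rcases Nat.lt_or_ge j m with h | h
    · exact Submodule.subset_span ⟨c, hc, j + 1, h, by ring⟩
    · have : j = m := by omega
      subst this
      have e : t * (c * t ^ j) = c * t ^ (j + 1) := by ring
      rw [e]
      exact M_mulB B t j c hc _ ht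
  | zero => rw [mul_zero]; exact Submodule.zero_mem _
  | add x y _ _ hx hy => rw [mul_add]; exact Submodule.add_mem _ hx hy
  | smul a x _ hx => rw [mul_smul_comm]; exact Submodule.smul_mem _ _ hx

lemma M_adjoin (B : Subalgebra ℚ R) (t : R) (m : ℕ) (ht : t ^ (m + 1) ∈ M B t m) (y : R)
    (hy : y ∈ Algebra.adjoin ℚ ((B : Set R) ∪ {t})) : ∀ z ∈ M B t m, y * z ∈ M B t m := by
  induction hy using Algebra.adjoin_induction with
  | mem x hx =>
    intro z hz
    rcases hx with hx | hx
    · exact M_mulB B t m x hx z hz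
    · rw [Set.mem_singleton_iff] at hx
      subst hx
      exact M_mulT B x m ht z hz
  | algebraMap r =>
    intro z hz
    rw [← Algebra.smul_def]
    exact Submodule.smul_mem _ _ hz
  | add x y _ _ hx hy =>
    intro z hz
    rw [add_mul]; exact Submodule.add_mem _ (hx z hz) (hy z hz)
  | mul x y _ _ hx hy =>
    intro z hz
    rw [mul_assoc]; exact hx _ (hy z hz)

/-- the products `b ∏ x_i^{g_i}` with `g_i + i < m` -/
def AS (B : Subalgebra ℚ R) {m : ℕ} (x : Fin m → R) : Set R :=
  {z | ∃ b ∈ B, ∃ g : Fin m → ℕ, (∀ i, g i + i < m) ∧ z = b * ∏ i, x i ^ g i}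

lemma pow_mem_M (B : Subalgebra ℚ R) (t : R) (m : ℕ) (P : R[X]) (hd : P.natDegree = m + 1)
    (hm : P.Monic) (hB : ∀ n, P.coeff n ∈ B) (h0 : P.eval t = 0) : t ^ (m + 1) ∈ M B t m := by
  rw [Polynomial.eval_eq_sum_range, hd, Finset.sum_range_succ] at h0
  have h1 : P.coeff (m + 1) = 1 := by rw [← hd]; exact hm
  rw [h1, one_mul] at h0
  have h2 : t ^ (m + 1) = ∑ j ∈ Finset.range (m + 1), (-P.coeff j) * t ^ j := by
    rw [eq_comm, ← sub_eq_zero, ← neg_eq_zero]
    rw [← h0]
    simp only [neg_mul, Finset.sum_neg_distrib]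
    ring
  rw [h2]
  refine Submodule.sum_mem _ fun j hj => Submodule.subset_span ⟨_, B.neg_mem (hB j), j, ?_, rfl⟩
  rw [Finset.mem_range] at hj; omega

theorem artin (m : ℕ) : ∀ (B : Subalgebra ℚ R) (x : Fin m → R)
    (_ : ∀ n, (∏ i, (X - C (x i))).coeff n ∈ B) (y : R)
    (_ : y ∈ Algebra.adjoin ℚ ((B : Set R) ∪ Set.range x)), y ∈ Submodule.span ℚ (AS B x) := by
  induction m with
  | zero =>
    intro B x _ y hy
    have h1 : (B : Set R) ∪ Set.range x = B := by simp
    rw [h1, Algebra.adjoin_eq] at hy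
    exact Submodule.subset_span ⟨y, hy, fun _ => 0, fun i => i.elim0, by simp⟩
  | succ m ih =>
    intro B x hB y hy
    nontriviality R
    set P : R[X] := ∏ i, (X - C (x i)) with hP
    set Q : R[X] := ∏ i : Fin m, (X - C (x i.succ)) with hQ
    have hPQ : P = (X - C (x 0)) * Q := by
      rw [hP, Fin.prod_univ_succ]
    have hmon : P.Monic := Polynomial.monic_prod_of_monic _ _ fun i _ => Polynomial.monic_X_sub_C _
    have hdeg : P.natDegree = m + 1 := by
      rw [hP, Polynomial.natDegree_prod_of_monic _ _ fun i _ => Polynomial.monic_X_sub_C _]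
      simp
    have hev : P.eval (x 0) = 0 := by rw [hPQ]; simp
    have hM : (x 0) ^ (m + 1) ∈ M B (x 0) m := pow_mem_M B (x 0) m P hdeg hmon hB hev
    set B' : Subalgebra ℚ R := Algebra.adjoin ℚ ((B : Set R) ∪ {x 0}) with hB'
    have hBB : ∀ b ∈ B, b ∈ B' := fun b hb => Algebra.subset_adjoin (Or.inl hb)
    have hx0 : x 0 ∈ B' := Algebra.subset_adjoin (Or.inr rfl)
    have hQB : ∀ n, Q.coeff n ∈ B' := by
      have hrec : ∀ n, Q.coeff n = P.coeff (n + 1) + x 0 * Q.coeff (n + 1) := by
        intro n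
        rw [hPQ, sub_mul, Polynomial.coeff_sub, Polynomial.coeff_X_mul, Polynomial.coeff_C_mul]
        ring
      have hbig : ∀ n, Q.natDegree < n → Q.coeff n ∈ B' := by
        intro n hn
        rw [Polynomial.coeff_eq_zero_of_natDegree_lt hn]; exact B'.zero_mem
      have hdesc : ∀ k n, Q.natDegree + 1 ≤ n + k → Q.coeff n ∈ B' := by
        intro k
        induction k with
        | zero => intro n hn; exact hbig n (by omega)
        | succ k ihk =>
          intro n hn
          rw [hrec]
          exact B'.add_mem (hBB _ (hB _)) (B'.mul_mem hx0 (ihk (n + 1) (by omega)))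
      intro n
      exact hdesc (Q.natDegree + 1) n (by omega)
    have hy' : y ∈ Algebra.adjoin ℚ ((B' : Set R) ∪ Set.range fun i : Fin m => x i.succ) := by
      refine Algebra.adjoin_mono (R := ℚ) ?_ hy
      rintro z (hz | ⟨i, rfl⟩)
      · exact Or.inl (hBB z hz)
      · refine Fin.cases ?_ (fun i => ?_) i
        · exact Or.inl hx0
        · exact Or.inr ⟨i, rfl⟩
    have h2 := ih B' (fun i => x i.succ) hQB y hy'
    refine Submodule.span_le.2 ?_ h2
    rintro z ⟨b, hb, g, hg, rfl⟩
    have hb1 : b ∈ M B (x 0) m := by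
      have := M_adjoin B (x 0) m hM b hb 1
        (Submodule.subset_span ⟨1, B.one_mem, 0, Nat.zero_le _, by simp⟩)
      rwa [mul_one] at this
    unfold M at hb1
    show b * ∏ i, x (Fin.succ i) ^ g i ∈ Submodule.span ℚ (AS B x)
    clear hb
    induction hb1 using Submodule.span_induction with
    | mem z hz =>
      obtain ⟨c, hc, j, hj, rfl⟩ := hz
      refine Submodule.subset_span ⟨c, hc, Fin.cons j g, ?_, ?_⟩
      · intro i
        refine Fin.cases ?_ (fun i => ?_) i
        · simp; omega
        · have := hg i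
          simp; omega
      · rw [Fin.prod_univ_succ]
        simp only [Fin.cons_zero, Fin.cons_succ]
        ring
    | zero => rw [zero_mul]; exact Submodule.zero_mem _
    | add x y _ _ hx hy => rw [add_mul]; exact Submodule.add_mem _ hx hy
    | smul a x _ hx => rw [smul_mul_assoc]; exact Submodule.smul_mem _ _ hx

end one

end Pool.Agent.TH19.DS
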