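import Pool.Agent.TH19.DS.B
import Pool.Agent.TH19.DS.C

/-! # A functional killed by the power sums is determined by its values on the monomials of Artin -/

set_option autoImplicit false

namespace Pool.Agent.TH19.DS

open MvPolynomial

lemma sh_ofFn (k m : ℕ) : ∀ (g : Fin m → ℕ) (γ : List ℕ → ℚ),
    sh k (List.ofFn g) γ = ∑ i, γ (List.ofFn (Function.update g i (g i + k))) := by
  induction m with
  | zero => intro g γ; simp [sh]
  | succ m ih =>
    intro g γ
    rw [List.ofFn_succ, sh, ih, Fin.sum_univ_succ]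
    congr 1
    · rw [List.ofFn_succ]
      simp
    · refine Finset.sum_congr rfl fun i _ => ?_
      rw [List.ofFn_succ (f := Function.update g i.succ (g i.succ + k))]
      congr 2
      congr 1
      funext j
      by_cases h : j = i
      · subst h; simp
      · rw [Function.update_of_ne h, Function.update_of_ne (by simpa using h)]

/-- the functional `x^g ↦ γ(g)`, for `|g| = d` -/
noncomputable def Lam (m d : ℕ) (γ : List ℕ → ℚ) : MvPolynomial (Fin m) ℚ →ₗ[ℚ] ℚ :=
  (MvPolynomial.basisMonomials (Fin m) ℚ).constr ℚ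
    (fun g : Fin m →₀ ℕ => if ∑ i, g i = d then γ (List.ofFn g) else 0)

lemma Lam_monomial (m d : ℕ) (γ : List ℕ → ℚ) (g : Fin m →₀ ℕ) :
    Lam m d γ (monomial g 1) = if ∑ i, g i = d then γ (List.ofFn g) else 0 := by
  have h : (monomial g (1 : ℚ)) = MvPolynomial.basisMonomials (Fin m) ℚ g := by
    rw [MvPolynomial.coe_basisMonomials]
  rw [h, Lam, Module.Basis.constr_basis]

/-- the ideal of the polynomials all of whose multiples are killed -/
noncomputable def NI (m d : ℕ) (γ : List ℕ → ℚ) : Ideal (MvPolynomial (Fin m) ℚ) where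
  carrier := {f | ∀ g, Lam m d γ (g * f) = 0}
  add_mem' := by
    intro a b ha hb g
    rw [mul_add, map_add, ha g, hb g, add_zero]
  zero_mem' := by intro g; rw [mul_zero, map_zero]
  smul_mem' := by
    intro c f hf g
    rw [smul_eq_mul, ← mul_assoc]
    exact hf (g * c)

lemma mem_NI {m d : ℕ} {γ : List ℕ → ℚ} {f : MvPolynomial (Fin m) ℚ} :
    f ∈ NI m d γ ↔ ∀ g, Lam m d γ (g * f) = 0 := Iff.rfl

lemma Lam_NI {m d : ℕ} {γ : List ℕ → ℚ} {f : MvPolynomial (Fin m) ℚ} (h : f ∈ NI m d γ) :
    Lam m d γ f = 0 := by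
  have := mem_NI.1 h 1
  rwa [one_mul] at this

lemma psum_mem {m d : ℕ} {γ : List ℕ → ℚ}
    (h : ∀ k, 1 ≤ k → ∀ l : List ℕ, l.length = m → l.sum + k = d → sh k l γ = 0)
    (k : ℕ) (hk : 1 ≤ k) : psum (Fin m) ℚ k ∈ NI m d γ := by
  rw [mem_NI]
  intro f
  induction f using MvPolynomial.induction_on' with
  | add p q hp hq => rw [add_mul, map_add, hp, hq, add_zero]
  | monomial g a =>
    have h1 : (monomial g a : MvPolynomial (Fin m) ℚ) * psum (Fin m) ℚ k =
        ∑ i, a • monomial (g + Finsupp.single i k) (1 : ℚ) := by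
      rw [psum, Finset.mul_sum]
      refine Finset.sum_congr rfl fun i _ => ?_
      rw [X_pow_eq_monomial, monomial_mul, smul_monomial]
      simp
    rw [h1, map_sum]
    have h2 : ∀ i : Fin m, Lam m d γ (a • monomial (g + Finsupp.single i k) (1 : ℚ)) =
        a * (if ∑ j, g j + k = d then γ (List.ofFn (Function.update g i (g i + k))) else 0) := by
      intro i
      rw [map_smul, Lam_monomial, smul_eq_mul]
      have e : ⇑(g + Finsupp.single i k) = Function.update g i (g i + k) := by
        funext j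
        by_cases hj : j = i
        · subst hj; simp
        · rw [Function.update_of_ne hj]
          simp [Ne.symm hj]
      have e2 : ∑ j, (g + Finsupp.single i k) j = ∑ j, g j + k := by
        simp [Finset.sum_add_distrib, Finsupp.single_apply]
      rw [e2, e]
    rw [Finset.sum_congr rfl fun i _ => h2 i, ← Finset.mul_sum]
    by_cases hd : ∑ j, g j + k = d
    · simp only [if_pos hd]
      rw [← sh_ofFn, h k hk (List.ofFn g) (by simp) (by rw [List.sum_ofFn]; exact hd), mul_zero]
    · simp only [if_neg hd]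
      simp

lemma esymm_mem {m d : ℕ} {γ : List ℕ → ℚ}
    (h : ∀ k, 1 ≤ k → ∀ l : List ℕ, l.length = m → l.sum + k = d → sh k l γ = 0)
    (k : ℕ) (hk : 1 ≤ k) : esymm (Fin m) ℚ k ∈ NI m d γ := by
  have h1 := MvPolynomial.mul_esymm_eq_sum (Fin m) ℚ k
  have h2 : (k : MvPolynomial (Fin m) ℚ) * esymm (Fin m) ℚ k ∈ NI m d γ := by
    rw [h1]
    refine Ideal.mul_mem_left _ _ (Ideal.sum_mem _ fun a ha => ?_)
    refine Ideal.mul_mem_left _ _ (psum_mem h _ ?_)
    rw [Finset.mem_filter, Finset.HasAntidiagonal.mem_antidiagonal] at ha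
    omega
  have h3 : esymm (Fin m) ℚ k = C (1 / (k : ℚ)) * ((k : MvPolynomial (Fin m) ℚ) * esymm (Fin m) ℚ k) := by
    rw [← mul_assoc]
    have : (k : MvPolynomial (Fin m) ℚ) = C (k : ℚ) := by simp
    rw [this, ← C_mul]
    have h4 : 1 / (k : ℚ) * k = 1 := by
      have : (k : ℚ) ≠ 0 := by
        have : k ≠ 0 := by omega
        exact_mod_cast this
      field_simp
    rw [h4, C_1, one_mul]
  rw [h3]
  exact Ideal.mul_mem_left _ _ h2

theorem coinv {m d : ℕ} {γ : List ℕ → ℚ}
    (h : ∀ k, 1 ≤ k → ∀ l : List ℕ, l.length = m → l.sum + k = d → sh k l γ = 0)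
    (hA : ∀ g : Fin m → ℕ, (∀ i, g i + i < m) → ∑ i, g i = d → γ (List.ofFn g) = 0) :
    ∀ l : List ℕ, l.length = m → l.sum = d → γ l = 0 := by
  intro l hl hd
  set I := NI m d γ with hI
  set mk := Ideal.Quotient.mk I with hmk
  let x : Fin m → MvPolynomial (Fin m) ℚ ⧸ I := fun i => - mk (X i)
  have hprod : ∏ i, (Polynomial.X - Polynomial.C (x i)) =
      (Polynomial.X ^ m : Polynomial (MvPolynomial (Fin m) ℚ ⧸ I)) := by
    have h1 := congrArg (Polynomial.map mk) (MvPolynomial.prod_C_add_X_eq_sum_esymm ℚ (Fin m))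
    rw [Polynomial.map_prod, Polynomial.map_sum, Finset.sum_range_succ'] at h1
    simp only [Polynomial.map_add, Polynomial.map_mul, Polynomial.map_X, Polynomial.map_C,
      Polynomial.map_pow, Fintype.card_fin, esymm_zero, map_one, one_mul, Nat.sub_zero] at h1
    have h2 : ∑ j ∈ Finset.range m, Polynomial.C (mk (esymm (Fin m) ℚ (j + 1))) *
        (Polynomial.X : Polynomial (MvPolynomial (Fin m) ℚ ⧸ I)) ^ (m - (j + 1)) = 0 := by
      refine Finset.sum_eq_zero fun j _ => ?_
      have h3 : mk (esymm (Fin m) ℚ (j + 1)) = 0 :=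
        Ideal.Quotient.eq_zero_iff_mem.2 (esymm_mem h _ (by omega))
      rw [h3, map_zero, zero_mul]
    rw [h2, zero_add] at h1
    rw [← h1]
    refine Finset.prod_congr rfl fun i _ => ?_
    simp [x, sub_neg_eq_add]
  have hcoef : ∀ n, (∏ i, (Polynomial.X - Polynomial.C (x i))).coeff n ∈
      (⊥ : Subalgebra ℚ (MvPolynomial (Fin m) ℚ ⧸ I)) := by
    intro n
    rw [hprod, Polynomial.coeff_X_pow]
    split_ifs
    · exact Subalgebra.one_mem _
    · exact Subalgebra.zero_mem _
  -- every class lifts to something killed by `Λ`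
  have hkey : ∀ y ∈ Submodule.span ℚ (AS ⊥ x), ∃ f, mk f = y ∧ Lam m d γ f = 0 := by
    intro y hy
    induction hy using Submodule.span_induction with
    | mem z hz =>
      obtain ⟨b, hb, g, hg, rfl⟩ := hz
      obtain ⟨c, rfl⟩ := Algebra.mem_bot.1 hb
      refine ⟨(c * ∏ i, (-1 : ℚ) ^ g i) • monomial (Finsupp.equivFunOnFinite.symm g) 1, ?_, ?_⟩
      · have h1 : (monomial (Finsupp.equivFunOnFinite.symm g) (1 : ℚ)) =
            ∏ i, (X i : MvPolynomial (Fin m) ℚ) ^ g i := by
          rw [monomial_eq, Finsupp.prod_fintype _ _ (fun i => pow_zero _)]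
          simp
        rw [h1]
        have h2 : mk ((c * ∏ i, (-1 : ℚ) ^ g i) • ∏ i, (X i : MvPolynomial (Fin m) ℚ) ^ g i) =
            algebraMap ℚ (MvPolynomial (Fin m) ℚ ⧸ I) (c * ∏ i, (-1 : ℚ) ^ g i) *
              mk (∏ i, (X i : MvPolynomial (Fin m) ℚ) ^ g i) := by
          rw [Algebra.smul_def, map_mul]
          rfl
        rw [h2, map_mul, map_prod, map_prod, mul_assoc, ← Finset.prod_mul_distrib]
        congr 1
        refine Finset.prod_congr rfl fun i _ => ?_
        simp only [x]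
        rw [neg_pow (mk (X i)), map_pow, map_pow, map_neg, map_one]
      · rw [map_smul, Lam_monomial]
        split_ifs with h1
        · have := hA g hg (by simpa using h1)
          have e : (⇑(Finsupp.equivFunOnFinite.symm g) : Fin m → ℕ) = g := by
            funext i; simp
          rw [e, this, smul_zero]
        · rw [smul_zero]
    | zero => exact ⟨0, by simp, by simp⟩
    | add y z _ _ hy hz =>
      obtain ⟨f, h1, h2⟩ := hy
      obtain ⟨g, h3, h4⟩ := hz
      exact ⟨f + g, by rw [map_add, h1, h3], by rw [map_add, h2, h4, add_zero]⟩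
    | smul a y _ hy =>
      obtain ⟨f, h1, h2⟩ := hy
      refine ⟨a • f, ?_, by rw [map_smul, h2, smul_zero]⟩
      rw [← h1, hmk]
      exact map_smul (Ideal.Quotient.mkₐ ℚ I) a f
  have hall : ∀ g : Fin m →₀ ℕ, ∑ i, g i = d → γ (List.ofFn g) = 0 := by
    intro g hg
    have h1 : mk (monomial g 1) ∈ Algebra.adjoin ℚ
        (((⊥ : Subalgebra ℚ (MvPolynomial (Fin m) ℚ ⧸ I)) : Set _) ∪ Set.range x) := by
      have h2 : (monomial g (1 : ℚ)) = ∏ i, (X i : MvPolynomial (Fin m) ℚ) ^ g i := by
        rw [monomial_eq, Finsupp.prod_fintype _ _ (fun i => pow_zero _)]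
        simp
      rw [h2, map_prod]
      refine Subalgebra.prod_mem _ fun i _ => ?_
      rw [map_pow]
      refine Subalgebra.pow_mem _ ?_ _
      have h3 : mk (X i) = - x i := by simp [x]
      rw [h3]
      exact Subalgebra.neg_mem _ (Algebra.subset_adjoin (Or.inr ⟨i, rfl⟩))
    obtain ⟨f, h2, h3⟩ := hkey _ (artin m ⊥ x hcoef _ h1)
    have h4 : monomial g 1 - f ∈ I := Ideal.Quotient.eq.1 h2.symm
    have h5 := Lam_NI h4
    rw [map_sub, h3, sub_zero, Lam_monomial, if_pos hg] at h5
    exact h5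
  subst hl
  have h1 := hall (Finsupp.equivFunOnFinite.symm l.get) (by
    rw [← hd]
    conv_rhs => rw [← List.ofFn_get l, List.sum_ofFn]
    simp)
  have e : (⇑(Finsupp.equivFunOnFinite.symm l.get) : Fin l.length → ℕ) = l.get := by
    funext i; simp
  rw [e, List.ofFn_get] at h1
  exact h1

end Pool.Agent.TH19.DS
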