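import Pool.Agent.TH19.DS.C2
import Pool.Agent.H217R3.DM.Comp
import Pool.Agent.H777R4.DM.SmallShear
import Pool.Agent.H777R4.DM.DMN
import Pool.Agent.H50R3.DM.TwoB

/-! # Elements of `dm` with few letters `x₀` -/

set_option autoImplicit false

namespace Pool.Agent.TH19.DS

open Pool.Agent.H777R4.DM

lemma count_len (t : List (Fin 2)) : t.count 0 + t.count 1 = t.length := by
  induction t with
  | nil => simp
  | cons a t ih =>
    have h : a = 0 ∨ a = 1 := by omega
    rcases h with rfl | rfl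
    · simp; omega
    · simp; omega

lemma W_length (l : List ℕ) : (W l).length = l.length + l.sum + 1 := by
  rw [← count_len, W_count0, W_count1]; omega

theorem vanish {ψ : A} (h : IsDM ψ) (n r : ℕ) (hn : ∀ u, co ψ u ≠ 0 → u.count 0 ≤ n) (hr : 1 ≤ r)
    (hA : ∀ g : Fin n → ℕ, (∀ i, g i + i < n) → ∑ i, g i + 1 = r → 1 ≤ n →
      co ψ (W (List.ofFn g)) = 0)
    (u : List (Fin 2)) (h0 : u.count 0 = n) (h1 : u.count 1 = r) : co ψ u = 0 := by
  have hφ := Pool.Agent.H217R3.DMC.taskComp ψ (n + r) h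
  set φ := comp (n + r) ψ with hφd
  have hco : ∀ t : List (Fin 2), co φ t = if t.length = n + r then co ψ t else 0 := fun t => co_comp _ _ _
  have hS : ∀ w, ins 1 w (co φ) = 0 := by
    intro w
    rw [ins_eq]
    exact Pool.Agent.H352.DSH.taskTwoC φ hφ.mem 1 hφ.c1 w
  have hT : ∀ w, ins 0 w (co φ) = 0 := by
    intro w
    rw [ins_eq]
    exact Pool.Agent.H352.DSH.taskTwoC φ hφ.mem 0 hφ.c0 w
  have hdep : ∀ t, co φ t ≠ 0 → r ≤ t.count 1 := by
    intro t ht
    rw [hco] at ht
    split_ifs at ht with hl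
    · have h2 := hn t ht
      have h3 := count_len t
      omega
    · exact absurd rfl ht
  have hF : ∀ v, co (dp r (run 0 φ)) v = if v.length = r then co φ (wordX v) else 0 := by
    intro v
    rw [co_dp, co_run]
    simp
  have hP := Pool.Agent.H466R3.DMPrim0.prim0 φ hφ r hr hdep _ hF
  have hY : ∀ v : List ℕ, v ≠ [] → v.length + 1 = r →
      co φ (1 :: wordX v) + af (wordX v) (co φ) = 0 := by
    intro v hv hl
    rw [← insY]
    rw [← Pool.Agent.H988R3.DM.prim_pair _ hP 0 v hv]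
    refine Finset.sum_congr rfl fun j hj => ?_
    rw [hF, if_pos]
    rw [List.length_insertIdx_of_le_length]
    · exact hl
    · rw [Finset.mem_range] at hj; omega
  have hB : ∀ l : List ℕ, l.length = n → l.sum + 1 = r → 1 ≤ n → co φ (W l) = 0 := by
    intro l hl hs h1n
    refine coinv (m := n) (d := r - 1) (γ := fun l => co φ (W l)) ?_ ?_ l hl (by omega)
    · intro k hk l' hl' hs'
      exact sh_zero hS hY k hk l' (by omega)
    · intro g hg hs'
      show co φ (W (List.ofFn g)) = 0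
      rw [hco]
      split_ifs
      · exact hA g hg (by omega) h1n
      · rfl
  have h2 := all_zero hS hT hr hB u h0 h1
  rw [hco, if_pos] at h2
  · exact h2
  · rw [← count_len, h0, h1]

/-- the exponents of the monomials of Artin in `k` variables -/
def AG (k : ℕ) : Finset (Fin k → ℕ) := Fintype.piFinset (fun i : Fin k => Finset.range (k - i))

lemma mem_AG {k : ℕ} {g : Fin k → ℕ} : g ∈ AG k ↔ ∀ i, g i + i < k := by
  unfold AG
  rw [Fintype.mem_piFinset]
  refine forall_congr' fun i => ?_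
  rw [Finset.mem_range]
  omega

lemma card_AG (k : ℕ) : (AG k).card = k.factorial := by
  unfold AG
  rw [Fintype.card_piFinset]
  simp only [Finset.card_range]
  rw [Fin.prod_univ_eq_prod_range (fun i => k - i) k, ← Nat.descFactorial_eq_prod_range,
    Nat.descFactorial_self]

lemma AG_sum {k : ℕ} {g : Fin k → ℕ} (h : g ∈ AG k) : 2 * ∑ i, g i ≤ k * (k - 1) := by
  rw [mem_AG] at h
  have h1 : ∑ i : Fin k, g i ≤ ∑ i : Fin k, (k - 1 - i) := Finset.sum_le_sum fun i _ => by
    have := h i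
    omega
  have h2 : ∑ i : Fin k, (k - 1 - (i : ℕ)) = ∑ i ∈ Finset.range k, i := by
    rw [Fin.sum_univ_eq_sum_range (fun i => k - 1 - i) k]
    exact Finset.sum_range_reflect (fun i => i) k
  have h3 := Finset.sum_range_id_mul_two k
  omega

/-- injectivity -/
theorem inj {ψ : A} (h : IsDM ψ) (m : ℕ) (hm : ∀ u, co ψ u ≠ 0 → u.count 0 ≤ m)
    (hA : ∀ k, 2 ≤ k → k ≤ m → ∀ g ∈ AG k, co ψ (W (List.ofFn g)) = 0) : ψ = 0 := by
  by_contra hne
  obtain ⟨u₀, hu₀⟩ := exists_co_ne hne
  -- the largest number of letters `x₀`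
  have hfin : ∃ n, (∀ u, co ψ u ≠ 0 → u.count 0 ≤ n) ∧ ∃ u, co ψ u ≠ 0 ∧ u.count 0 = n := by
    classical
    have hex : ∃ n, ∀ u, co ψ u ≠ 0 → u.count 0 ≤ n := ⟨m, hm⟩
    refine ⟨Nat.find hex, Nat.find_spec hex, ?_⟩
    by_contra hcon
    push Not at hcon
    have h1 : ∀ u, co ψ u ≠ 0 → u.count 0 < Nat.find hex := fun u hu =>
      lt_of_le_of_ne (Nat.find_spec hex u hu) (hcon u hu)
    have h2 : 0 < Nat.find hex := lt_of_le_of_lt (Nat.zero_le _) (h1 u₀ hu₀)
    exact Nat.find_min hex (m := Nat.find hex - 1) (by omega) fun u hu => by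
      have := h1 u hu
      omega
  obtain ⟨n, hn, u, hu, hun⟩ := hfin
  have hsmall := Pool.Agent.H777R4.DM.taskSmall_proof Pool.Agent.H777R4.DM.taskTwoB
    Pool.Agent.H352.DSH.taskTwoC ψ h u hu
  have hnm : n ≤ m := by rw [← hun]; exact hm u hu
  apply hu
  refine vanish h n (u.count 1) hn hsmall.2 ?_ u hun rfl
  intro g hg hs h1
  by_cases h2 : 2 ≤ n
  · exact hA n h2 hnm g (mem_AG.2 hg)
  · have : n = 1 := by omega
    subst this
    have hg0 : g 0 = 0 := by have := hg 0; simp at this; exact this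
    have e : W (List.ofFn g) = [0, 1] := by
      rw [List.ofFn_succ, hg0]
      simp [W]
    rw [e]
    exact h.c01

end Pool.Agent.TH19.DS
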