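import Pool.Agent.TH19.DS.D

/-! # The space of elements of `dm` with few letters `x₀` -/

set_option autoImplicit false

namespace Pool.Agent.TH19.DS

open Pool.Agent.H777R4.DM

/-- a space of polynomials separated by finitely many coefficients -/
lemma fin_of_words (V : Submodule ℚ A) (S : Finset (List (Fin 2)))
    (h : ∀ ψ ∈ V, (∀ s ∈ S, co ψ s = 0) → ψ = 0) :
    Module.Finite ℚ V ∧ Module.finrank ℚ V ≤ S.card := by
  let T : V →ₗ[ℚ] (S → ℚ) :=
    { toFun := fun ψ s => co ψ.1 s.1
      map_add' := fun ψ φ => by funext s; simp [co_add]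
      map_smul' := fun c ψ => by funext s; simp [co_smul] }
  have hT : Function.Injective T := by
    rw [injective_iff_map_eq_zero]
    intro ψ hψ
    apply Subtype.ext
    refine h ψ.1 ψ.2 fun s hs => ?_
    exact congrFun hψ ⟨s, hs⟩
  refine ⟨Module.Finite.of_injective T hT, ?_⟩
  have h1 := LinearMap.finrank_le_finrank_of_injective hT
  simpa using h1

/-- the words of the list `g ∈ AG k`, `2 ≤ k ≤ m`, `∑ g + k + 1 = w` -/
def SW (m w : ℕ) : Finset (List (Fin 2)) :=
  (Finset.Icc 2 m).biUnion fun k =>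
    ((AG k).filter fun g => ∑ i, g i + k + 1 = w).image fun g => W (List.ofFn g)

def SA (m : ℕ) : Finset (List (Fin 2)) :=
  (Finset.Icc 2 m).biUnion fun k => (AG k).image fun g => W (List.ofFn g)

lemma card_SA (m : ℕ) : (SA m).card ≤ ∑ k ∈ Finset.Icc 2 m, k.factorial := by
  unfold SA
  refine Finset.card_biUnion_le.trans (Finset.sum_le_sum fun k _ => ?_)
  refine Finset.card_image_le.trans ?_
  rw [card_AG]

lemma card_SW (m w : ℕ) : (SW m w).card ≤
    ∑ k ∈ Finset.Icc 2 m, ((AG k).filter fun g => ∑ i, g i + k + 1 = w).card := by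
  unfold SW
  exact Finset.card_biUnion_le.trans (Finset.sum_le_sum fun k _ => Finset.card_image_le)

lemma ofFn_length_sum {k : ℕ} (g : Fin k → ℕ) : (W (List.ofFn g)).length = ∑ i, g i + k + 1 := by
  rw [W_length, List.length_ofFn, List.sum_ofFn]; omega

lemma len_bound {m k : ℕ} (h1 : 2 ≤ k) (h2 : k ≤ m) {g : Fin k → ℕ} (hg : g ∈ AG k) :
    ∑ i, g i + k + 1 ≤ m + 1 + m * (m - 1) / 2 := by
  have h3 := AG_sum hg
  have h4 : k * (k - 1) ≤ m * (m - 1) := Nat.mul_le_mul h2 (by omega)
  omega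

end Pool.Agent.TH19.DS
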